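import Pool.Agent.Gab7b_h87.CY1.DV
import Pool.Agent.Gab7b_h87.CY1.DG

/-! Certificate; see `Pool/Agent/Gab7b_h87/Ax.lean`. -/

set_option autoImplicit false
set_option maxRecDepth 100000

namespace Pool.Agent.Gab7b_h87.CY1

open Pool.Agent.Gab7b_h87.Sat

/-- axioms -/
def l10 : List Ax := [.g2 15745,
  .gd 5 24 1 2,
  .ex 13184 1 [0] [10,11],
  .ex 122 2 [11] [7,8],
  .ex 1984 11 [12] [2,4],
  .nu 19 11 104 98 8,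
  .sx 9263 3 [4,6,7,8,9,11,12],
  .ex 3472 9 [13] [2,6],
  .ex 11648 9 [4] [5,12],
  .nu 7 7 74 104 1,
  .ex 3472 5 [3] [9,12],
  .ex 13057 7 [3] [1,10],
  .g1 10295,
  .ex 12673 9 [11] [1,4],
  .ex 13825 2 [4] [1,8],
  .ex 13952 2 [0] [6,8],
  .ex 744 11 [10] [2,8],
  .ex 2404 3 [4] [1,7],
  .ex 7808 6 [3] [1,8],
  .ex 2472 1 [4] [6,9],
  .gd 60 102 6 3,
  .ex 220 1 [10] [5,11],
  .ex 15104 7 [3] [0,10],
  .ex 12803 11 [10] [3,7],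
  .g3 13363,
  .ex 1952 13 [1] [6,11],
  .ex 6016 11 [13] [5,6],
  .ex 4123 2 [13] [6,9],
  .ex 12803 2 [3] [8,11],
  .ex 12930 2 [8] [0,11],
  .gd 52 104 3 4,
  .ex 15364 9 [8] [0,1],
  .gd 100 52 3 1,
  .gd 80 68 5 4,
  .g2 253,
  .gd 60 101 6 4,
  .ud 52 88 2 4 2,
  .ex 55 3 [6] [10,11],
  .ex 696 1 [2] [6,11],
  .gd 18 9 0 2,
  .ex 13569 1 [3] [9,11],
  .gd 19 26 2 2,
  .ex 744 11 [2] [4,10],
  .gd 17 20 2 0,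
  .ex 218 10 [11] [2,5],
  .gd 46 102 6 3,
  .ex 4147 3 [6] [11,13],
  .ex 2480 3 [2] [9,10],
  .ex 372 7 [11] [3,10],
  .sx 13587 4 [2,3,5,6,7,9,11],
  .ex 91 2 [12] [5,9],
  .gd 88 82 1 5,
  .ex 14339 4 [8] [2,9],
  .nu 19 7 100 100 9,
  .ex 220 5 [10] [8,11],
  .ex 1504 4 [1] [9,11],
  .ex 3904 5 [2] [7,12],
  .ex 9737 8 [11] [1,12],
  .ex 59 2 [11] [6,10],
  .ex 744 10 [0] [4,11],
  .ex 5889 1 [4] [11,13],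
  .gd 3 17 4 3,
  .g3 13849,
  .ex 234 4 [9] [0,2],
  .gd 60 114 6 2,
  .ex 117 13 [11] [1,3],
  .gd 96 36 4 4,
  .ex 2960 12 [13] [6,10],
  .ex 8215 3 [10] [8,12]]

theorem a10 : axchk ⟨7, 127, 55, [(3, 3), (4, 2), (5, 1), (6, 0)], [12567, 3816], [], [2]⟩ (Tr.get ⟨9, 0, 0, 0⟩ v) (Tr.get 0 g) l10 10069 10000 = true := by
  decide +kernel

end Pool.Agent.Gab7b_h87.CY1
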