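import Pool.Agent.Gab7b_h87.CY1.A0
import Pool.Agent.Gab7b_h87.CY1.A1
import Pool.Agent.Gab7b_h87.CY1.A2
import Pool.Agent.Gab7b_h87.CY1.A3
import Pool.Agent.Gab7b_h87.CY1.A4
import Pool.Agent.Gab7b_h87.CY1.A5
import Pool.Agent.Gab7b_h87.CY1.A6
import Pool.Agent.Gab7b_h87.CY1.A7
import Pool.Agent.Gab7b_h87.CY1.A8
import Pool.Agent.Gab7b_h87.CY1.A9
import Pool.Agent.Gab7b_h87.CY1.A10
import Pool.Agent.Gab7b_h87.CY1.T0
import Pool.Agent.Gab7b_h87.CY1.T1
import Pool.Agent.Gab7b_h87.CY1.T2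
import Pool.Agent.Gab7b_h87.CY1.T3
import Pool.Agent.Gab7b_h87.CY1.T4
import Pool.Agent.Gab7b_h87.CY1.T5
import Pool.Agent.Gab7b_h87.CY1.T6
import Pool.Agent.Gab7b_h87.CY1.T7
import Pool.Agent.Gab7b_h87.CY1.T8
import Pool.Agent.Gab7b_h87.CY1.T9
import Pool.Agent.Gab7b_h87.CY1.T10
import Pool.Agent.Gab7b_h87.CY1.T11
import Pool.Agent.Gab7b_h87.CY1.T12
import Pool.Agent.Gab7b_h87.CY1.T13
import Pool.Agent.Gab7b_h87.CY1.T14

/-! Certificate; see `Pool/Agent/Gab7b_h87/Ax.lean`. -/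

set_option autoImplicit false
set_option maxRecDepth 100000

namespace Pool.Agent.Gab7b_h87.CY1

open Pool.Agent.Gab7b_h87.Sat

theorem z : Tr.get 0 g 29238 = 0 := by decide +kernel

/-- The problem with these parameters has no solution. -/
theorem bad {α : Type*} [DecidableEq α] (c : Cx α)
    (hp : c.toPar = ⟨7, 127, 55, [(3, 3), (4, 2), (5, 1), (6, 0)], [12567, 3816], [], [2]⟩) : False := by
  have s0 := axchk_sound c hp _ _ _ _ _ a0
  have s0 := s0.trans (axchk_sound c hp _ _ _ _ _ a1)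
  have s0 := s0.trans (axchk_sound c hp _ _ _ _ _ a2)
  have s0 := s0.trans (axchk_sound c hp _ _ _ _ _ a3)
  have s0 := s0.trans (axchk_sound c hp _ _ _ _ _ a4)
  have s0 := s0.trans (axchk_sound c hp _ _ _ _ _ a5)
  have s0 := s0.trans (axchk_sound c hp _ _ _ _ _ a6)
  have s0 := s0.trans (axchk_sound c hp _ _ _ _ _ a7)
  have s0 := s0.trans (axchk_sound c hp _ _ _ _ _ a8)
  have s0 := s0.trans (axchk_sound c hp _ _ _ _ _ a9)
  have s0 := s0.trans (axchk_sound c hp _ _ _ _ _ a10)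
  have s0 := chk_sound' t0 (e := 14904) rfl s0
  have s0 := chk_sound' t1 (e := 15732) rfl s0
  have s0 := chk_sound' t2 (e := 20953) rfl s0
  have s0 := chk_sound' t3 (e := 22306) rfl s0
  have s0 := chk_sound' t4 (e := 22945) rfl s0
  have s0 := chk_sound' t5 (e := 23533) rfl s0
  have s0 := chk_sound' t6 (e := 24108) rfl s0
  have s0 := chk_sound' t7 (e := 24849) rfl s0
  have s0 := chk_sound' t8 (e := 25420) rfl s0
  have s0 := chk_sound' t9 (e := 26084) rfl s0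
  have s0 := chk_sound' t10 (e := 26676) rfl s0
  have s0 := chk_sound' t11 (e := 27306) rfl s0
  have s0 := chk_sound' t12 (e := 27937) rfl s0
  have s0 := chk_sound' t13 (e := 28695) rfl s0
  have s0 := chk_sound' t14 (e := 29239) rfl s0
  exact s0.false z

end Pool.Agent.Gab7b_h87.CY1
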